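import Pool.Agent.H405Z.Zak.Defs
import Pool.Agent.H405Z.Zak.Main

/-!
A counterexample to the conjecture of Rioul: the trapezoid `φ(t) = h(t+1) + h(t) + h(t-1)`, with
`h(t) = max(0, 1-|t|)`, has symbol `cos(2πξ) + cos(4πξ)` and `Zφ(t, 1/3) = 0` for every `t`.
-/

set_option autoImplicit false

namespace Pool.Agent.Results.MP_057a77_an.Counterexample

open Pool.Agent.H405Z.Zak

/-- There is a nonzero, continuous, compactly supported, real and nonnegative solution of a dilation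
equation with finitely many coefficients, whose symbol satisfies `D(0) = 2`, `D(1/2) = 0` and has
no pair of symmetric zeros, such that for every `t` the Zak transform vanishes at some real `ξ`. -/
theorem result : ∃ (φ : ℝ → ℂ) (d : ℤ →₀ ℂ), φ ≠ 0 ∧ Continuous φ ∧ HasCompactSupport φ ∧
    (∀ t, (φ t).im = 0 ∧ 0 ≤ (φ t).re) ∧ Dilation φ d ∧ symbol d 0 = 2 ∧ symbol d (1 / 2) = 0 ∧
    (¬ ∃ ξ₀ ∈ Set.Ico (0 : ℝ) 1, symbol d ξ₀ = 0 ∧ symbol d (ξ₀ + 1 / 2) = 0) ∧
    ∀ t : ℝ, ∃ ξ : ℝ, zak φ t ξ = 0 :=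
  Pool.Agent.H405Z.Zak.main

end Pool.Agent.Results.MP_057a77_an.Counterexample
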